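import Mathlib
import Pool.Agent.H220.F4.All
import Pool.Agent.H220.F4.Sane

/-!
# The equation `(dd^c u)² = λ ⊗ δ₀` has no solution in Cegrell's class `𝓕(𝔻²)`

All notions entering the statement are defined in this file, over Mathlib alone.
-/

set_option autoImplicit false

open MeasureTheory Metric Set Filter Topology
open scoped ContDiff ComplexOrder

namespace Pool.Agent.Results.MP_4eb3f9_an.NoSolution

/-- `ℂⁿ` with its Euclidean norm; `volume` on it is Lebesgue measure on `ℝ²ⁿ`. -/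
abbrev Cn (n : ℕ) : Type := EuclideanSpace ℂ (Fin n)

/-- The `j`-th unit vector of `ℂⁿ`. -/
noncomputable def bas {n : ℕ} (j : Fin n) : Cn n := EuclideanSpace.single j (1 : ℂ)

/-- The Wirtinger derivative `∂f/∂z_j = (∂f/∂x_j - i ∂f/∂y_j) / 2`. -/
noncomputable def wd {n : ℕ} (j : Fin n) (f : Cn n → ℂ) (z : Cn n) : ℂ :=
  (fderiv ℝ f z (bas j) - Complex.I * fderiv ℝ f z (Complex.I • bas j)) / 2

/-- The Wirtinger derivative `∂f/∂z̄_k = (∂f/∂x_k + i ∂f/∂y_k) / 2`. -/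
noncomputable def wdb {n : ℕ} (k : Fin n) (f : Cn n → ℂ) (z : Cn n) : ℂ :=
  (fderiv ℝ f z (bas k) + Complex.I * fderiv ℝ f z (Complex.I • bas k)) / 2

/-- The complex Hessian `(∂²u/∂z_j∂z̄_k)` of a real function. -/
noncomputable def hess {n : ℕ} (u : Cn n → ℝ) (z : Cn n) : Matrix (Fin n) (Fin n) ℂ :=
  Matrix.of fun j k => wd j (wdb k fun w => (u w : ℂ)) z

/-- Plurisubharmonic functions on an open set `Ω` of `ℂⁿ`, with values in `[-∞, ∞)`: upper
semicontinuous, and for every closed complex disc `{a + ζ b : |ζ| ≤ 1} ⊆ Ω` the value at the centre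
`a` is at most the mean over the boundary circle. The mean of an upper semicontinuous function is
the infimum of the means of its continuous majorants, which is how it is expressed here. -/
def PSH {n : ℕ} (Ω : Set (Cn n)) (u : Cn n → EReal) : Prop :=
  UpperSemicontinuousOn u Ω ∧ (∀ z ∈ Ω, u z < ⊤) ∧
  ∀ a b : Cn n, (∀ ζ : ℂ, ‖ζ‖ ≤ 1 → a + ζ • b ∈ Ω) →
    ∀ φ : ℂ → ℝ, Continuous φ →
      (∀ ζ : ℂ, ‖ζ‖ = 1 → u (a + ζ • b) ≤ ((φ ζ : ℝ) : EReal)) →
        u a ≤ ((Real.circleAverage φ 0 1 : ℝ) : EReal)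

/-- The density of `(dd^c v)ⁿ` with respect to Lebesgue measure for a `C²` function `v`, where
`dd^c = (i/π)∂∂̄`: it is `n! (2/π)ⁿ det(∂²v/∂z_j∂z̄_k)`. -/
noncomputable def maDensity {n : ℕ} (v : Cn n → ℝ) (z : Cn n) : ℝ :=
  (n.factorial : ℝ) * (2 / Real.pi) ^ n * (hess v z).det.re

/-- `μ` is, on `Ω`, the Monge-Ampere measure `(dd^c u)ⁿ` of the locally bounded plurisubharmonic
function `u` in the sense of Bedford and Taylor: it is finite on compact subsets of `Ω`, and on every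
open `U` relatively compact in `Ω` the function `u` is the pointwise limit of a decreasing sequence of
smooth plurisubharmonic functions `v_k` whose Monge-Ampere measures `maDensity (v_k) dVol` converge
weakly to `μ` on `U`. -/
def IsMongeAmpere {n : ℕ} (Ω : Set (Cn n)) (u : Cn n → ℝ) (μ : Measure (Cn n)) : Prop :=
  (∀ K : Set (Cn n), IsCompact K → K ⊆ Ω → μ K < ⊤) ∧
  ∀ U : Set (Cn n), IsOpen U → IsCompact (closure U) → closure U ⊆ Ω →
    ∃ v : ℕ → Cn n → ℝ,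
      (∀ k, ContDiffOn ℝ ∞ (v k) U) ∧
      (∀ k, ∀ z ∈ U, (hess (v k) z).PosSemidef) ∧
      (∀ z ∈ U, Antitone fun k => v k z) ∧
      (∀ z ∈ U, Tendsto (fun k => v k z) atTop (𝓝 (u z))) ∧
      ∀ χ : Cn n → ℝ, Continuous χ → HasCompactSupport χ → tsupport χ ⊆ U →
        Tendsto (fun k => ∫ z, χ z * maDensity (v k) z) atTop (𝓝 (∫ z, χ z ∂μ))

/-- `Ω` is hyperconvex: there is a negative plurisubharmonic function `ρ` on `Ω` such that every
sublevel set `{ρ < c}`, `c < 0`, is relatively compact in `Ω`. -/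
def Hyperconvex {n : ℕ} (Ω : Set (Cn n)) : Prop :=
  ∃ ρ : Cn n → EReal, PSH Ω ρ ∧ (∀ z ∈ Ω, ρ z < 0) ∧
    ∀ c : ℝ, c < 0 → ∃ K : Set (Cn n), IsCompact K ∧ K ⊆ Ω ∧ ∀ z ∈ Ω, ρ z < (c : EReal) → z ∈ K

/-- `u ∈ 𝓔₀(Ω)` with `(dd^c u)ⁿ = ν`: `u` is a bounded plurisubharmonic function, `u ≤ 0`,
`u(z) → 0` as `z → ∂Ω`, and the total mass of `(dd^c u)ⁿ` is finite. -/
def IsE0 {n : ℕ} (Ω : Set (Cn n)) (u : Cn n → ℝ) (ν : Measure (Cn n)) : Prop :=
  PSH Ω (fun z => ((u z : ℝ) : EReal)) ∧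
  (∃ M : ℝ, ∀ z ∈ Ω, -M ≤ u z) ∧ (∀ z ∈ Ω, u z ≤ 0) ∧
  (∀ w ∈ frontier Ω, Tendsto u (𝓝[Ω] w) (𝓝 0)) ∧
  IsMongeAmpere Ω u ν ∧ ν Ω < ⊤

/-- `φ` belongs to the Cegrell class `𝓕(Ω)` with `(dd^c φ)ⁿ = μ`: `φ` is plurisubharmonic, and there
is a sequence `u_j ∈ 𝓔₀(Ω)` decreasing pointwise to `φ`, with total masses bounded, such that
`(dd^c u_j)ⁿ` converges weakly to `μ` on `Ω`. -/
def IsCegrellF {n : ℕ} (Ω : Set (Cn n)) (φ : Cn n → EReal) (μ : Measure (Cn n)) : Prop :=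
  PSH Ω φ ∧ μ Ω < ⊤ ∧
  ∃ (u : ℕ → Cn n → ℝ) (ν : ℕ → Measure (Cn n)),
    (∀ j, IsE0 Ω (u j) (ν j)) ∧
    (∀ z ∈ Ω, Antitone fun j => u j z) ∧
    (∀ z ∈ Ω, Tendsto (fun j => ((u j z : ℝ) : EReal)) atTop (𝓝 (φ z))) ∧
    (∃ M : ℝ, ∀ j, ν j Ω ≤ ENNReal.ofReal M) ∧
    ∀ χ : Cn n → ℝ, Continuous χ → HasCompactSupport χ → tsupport χ ⊆ Ω →
      Tendsto (fun j => ∫ z, χ z ∂(ν j)) atTop (𝓝 (∫ z, χ z ∂μ))

/-- The unit bidisc `𝔻 × 𝔻` in `ℂ²`. -/
def bidisc : Set (Cn 2) := {z | ‖z 0‖ < 1 ∧ ‖z 1‖ < 1}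

/-- The measure `λ ⊗ δ₀`: Lebesgue measure of the unit disc in the first coordinate, the Dirac mass
at `0` in the second coordinate. -/
noncomputable def lebDirac : Measure (Cn 2) :=
  Measure.map (fun p : ℂ × ℂ => (!₂[p.1, p.2] : Cn 2))
    (((volume : Measure ℂ).restrict (ball 0 1)).prod (Measure.dirac 0))

/-- Sanity check: the bidisc is a bounded hyperconvex domain, and `λ ⊗ δ₀` is carried by it and has
total mass `π`. -/
theorem setting_check : IsOpen bidisc ∧ IsConnected bidisc ∧ Bornology.IsBounded bidisc ∧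
    Hyperconvex bidisc ∧ lebDirac bidisc = ENNReal.ofReal Real.pi ∧ lebDirac bidiscᶜ = 0 := by
  have h : lebDirac = Pool.Agent.H220.F4.mu0 := Pool.Agent.H220.F4.lebDirac_eq
  rw [h]
  exact Pool.Agent.H220.F4.bidisc_check

/-- **Q1, answered in the negative.** There is no `u ∈ 𝓕(𝔻²)` with `(dd^c u)² = c · λ ⊗ δ₀`, for any
constant `c > 0` (so the answer does not depend on the normalisation of `dd^c`). -/
theorem result (c : ℝ) (hc : 0 < c) :
    ¬ ∃ u : Cn 2 → EReal, IsCegrellF bidisc u (ENNReal.ofReal c • lebDirac) := by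
  rintro ⟨u, hu⟩
  have h : lebDirac = Pool.Agent.H220.F4.mu0 := Pool.Agent.H220.F4.lebDirac_eq
  rw [h] at hu
  exact Pool.Agent.H220.F4.main_final hc u hu

end Pool.Agent.Results.MP_4eb3f9_an.NoSolution
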